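import Mathlib

/-! Strong Chang's Conjecture: `SCC^split` says that `End(M)` always has `2^ω` members with pairwise
incomparable traces on `ω₂`, and `SCC^cof` that it always has `ℵ₂` of them; so `SCC^split` implies
`SCC^cof` or the continuum hypothesis.

Proof. The part of an end-extension below one of its elements `α < ω₂` is determined by `α` and
`M ∩ ω₁` (the `Δ`-least code of a surjection of `ω₁` onto `α` lies in it). Splitting along a binary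
tree and taking unions of branches gives `2^ω` incomparable members. If all members are bounded by
`η < ω₂` and `F_i` are pairwise incomparable, end-extend `F_i` with a new ordinal `γ_i < η`; then
`i ↦ γ_i` is injective, so there are at most `ℵ₁` of them. If the members are cofinal, the elements
of members form a tree of size `ℵ₂` and height at most `ω₁`; one level of size `ℵ₂` gives `ℵ₂`
incomparable members. -/

set_option autoImplicit false

namespace Pool.Agent.Results.MP_d8f801_lc.SplitGivesCofinal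

open FirstOrder FirstOrder.Language Cardinal Ordinal Set

/-! ## Definitions used in the statement -/

/-- The two relation symbols of the language: membership and the wellorder `Δ`. -/
inductive Sym : ℕ → Type
  | mem : Sym 2
  | wo : Sym 2

/-- The language `{∈, Δ}` (two binary relation symbols, no functions). -/
def LD : FirstOrder.Language.{0, 0} := ⟨fun _ => Empty, Sym⟩

/-- `x ∈ H_θ`: `x` is contained in a transitive set of cardinality `< θ`. -/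
def HC (θ : Cardinal.{0}) (x : ZFSet.{0}) : Prop :=
  ∃ t : ZFSet.{0}, t.IsTransitive ∧ x ⊆ t ∧ t.card < θ

/-- The set `H_θ` of sets of hereditary cardinality `< θ`. -/
def Hth (θ : Cardinal.{0}) : Type 1 := {x : ZFSet.{0} // HC θ x}

/-- The structure `(H_θ, ∈, Δ)` (as a type it is `H_θ`). -/
def HS (θ : Cardinal.{0}) (_ : Hth θ → Hth θ → Prop) : Type 1 := Hth θ

instance (θ : Cardinal.{0}) (Δ : Hth θ → Hth θ → Prop) : LD.Structure (HS θ Δ) where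
  funMap := fun f => Empty.elim f
  RelMap := fun {_} R v => match R with
    | .mem => (v 0).1 ∈ (v 1).1
    | .wo => Δ (v 0) (v 1)

/-- `W ∩ κ` for a subset `W` of `H_θ` and an ordinal `κ`, as a set of ordinals. -/
def tr {θ : Cardinal.{0}} {Δ : Hth θ → Hth θ → Prop} (W : Set (HS θ Δ)) (κ : Ordinal.{0}) :
    Set Ordinal.{0} :=
  {α | α < κ ∧ ∃ x ∈ W, x.1 = α.toZFSet}

/-- `W` is countable and `W ∩ ω₁ ∈ ω₁`. -/
def PStar {θ : Cardinal.{0}} {Δ : Hth θ → Hth θ → Prop} (W : Set (HS θ Δ)) : Prop :=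
  W.Countable ∧ ∃ δ < (ω_ 1 : Ordinal.{0}), tr W (ω_ 1) = Set.Iio δ

/-- `M' ∈ End(M)`. -/
def InEnd {θ : Cardinal.{0}} {Δ : Hth θ → Hth θ → Prop}
    (M M' : LD.ElementarySubstructure (HS θ Δ)) : Prop :=
  PStar (M' : Set (HS θ Δ)) ∧ M ≤ M' ∧
    tr (M : Set (HS θ Δ)) (ω_ 1) = tr (M' : Set (HS θ Δ)) (ω_ 1)

/-- The principle `SCC^split`. -/
def SCCsplit : Prop :=
  ∃ θ₀ : Cardinal.{0}, ∀ θ : Cardinal.{0}, θ₀ ≤ θ → θ.IsRegular →
    ∀ Δ : Hth θ → Hth θ → Prop, IsWellOrder (Hth θ) Δ →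
    ∀ M : LD.ElementarySubstructure (HS θ Δ), PStar (M : Set (HS θ Δ)) →
    ∃ M₀ M₁ : LD.ElementarySubstructure (HS θ Δ), InEnd M M₀ ∧ InEnd M M₁ ∧
      ¬ tr (M₀ : Set (HS θ Δ)) (ω_ 2) ⊆ tr (M₁ : Set (HS θ Δ)) (ω_ 2) ∧
      ¬ tr (M₁ : Set (HS θ Δ)) (ω_ 2) ⊆ tr (M₀ : Set (HS θ Δ)) (ω_ 2)

/-- The principle `SCC^cof`. -/
def SCCcof : Prop :=
  ∃ θ₀ : Cardinal.{0}, ∀ θ : Cardinal.{0}, θ₀ ≤ θ → θ.IsRegular →
    ∀ Δ : Hth θ → Hth θ → Prop, IsWellOrder (Hth θ) Δ →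
    ∀ M : LD.ElementarySubstructure (HS θ Δ), PStar (M : Set (HS θ Δ)) →
    ∀ γ₀ < (ω_ 2 : Ordinal.{0}), ∃ γ, γ₀ ≤ γ ∧ γ < (ω_ 2 : Ordinal.{0}) ∧
      ∃ M' : LD.ElementarySubstructure (HS θ Δ), InEnd M M' ∧
        γ ≤ sSup (tr (M' : Set (HS θ Δ)) (ω_ 2))

/-- The principle: for all sufficiently large regular `θ`, all `Δ` and all `M`, the set `End(M)`
has `lam` members whose traces on `ω₂` are pairwise `⊆`-incomparable. -/
def Many (lam : Cardinal.{0}) : Prop :=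
  ∃ θ₀ : Cardinal.{0}, ∀ θ : Cardinal.{0}, θ₀ ≤ θ → θ.IsRegular →
    ∀ Δ : Hth θ → Hth θ → Prop, IsWellOrder (Hth θ) Δ →
    ∀ M : LD.ElementarySubstructure (HS θ Δ), PStar (M : Set (HS θ Δ)) →
    ∃ (I : Type) (F : I → LD.ElementarySubstructure (HS θ Δ)), #I = lam ∧
      (∀ i, InEnd M (F i)) ∧ ∀ i j, i ≠ j →
        ¬ tr (F i : Set (HS θ Δ)) (ω_ 2) ⊆ tr (F j : Set (HS θ Δ)) (ω_ 2)

/-! ## Definability with named variables -/

section Def

variable {L : FirstOrder.Language.{0, 0}} {M : Type 1} [L.Structure M]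

/-- definable relations of assignments of `ℕ`-many variables -/
def Df (L : FirstOrder.Language.{0, 0}) {M : Type 1} [L.Structure M]
    (R : (ℕ → M) → Prop) : Prop :=
  ∃ φ : L.Formula ℕ, ∀ v, φ.Realize v ↔ R v

theorem Df.congr {R R' : (ℕ → M) → Prop} (h : Df L R) (hh : ∀ v, R v ↔ R' v) : Df L R' := by
  obtain ⟨φ, hφ⟩ := h
  exact ⟨φ, fun v => (hφ v).trans (hh v)⟩

theorem Df.not {R : (ℕ → M) → Prop} (h : Df L R) : Df L (fun v => ¬ R v) := by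
  obtain ⟨φ, hφ⟩ := h
  exact ⟨φ.not, fun v => by simp [hφ]⟩

theorem Df.and {R R' : (ℕ → M) → Prop} (h : Df L R) (h' : Df L R') :
    Df L (fun v => R v ∧ R' v) := by
  obtain ⟨φ, hφ⟩ := h
  obtain ⟨ψ, hψ⟩ := h'
  exact ⟨φ ⊓ ψ, fun v => by simp [hφ, hψ]⟩

theorem Df.imp {R R' : (ℕ → M) → Prop} (h : Df L R) (h' : Df L R') :
    Df L (fun v => R v → R' v) := by
  obtain ⟨φ, hφ⟩ := h
  obtain ⟨ψ, hψ⟩ := h'
  exact ⟨φ.imp ψ, fun v => by simp [hφ, hψ]⟩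

theorem Df.or {R R' : (ℕ → M) → Prop} (h : Df L R) (h' : Df L R') :
    Df L (fun v => R v ∨ R' v) := by
  refine (h.not.imp h').congr fun v => ?_
  tauto

theorem Df.iff {R R' : (ℕ → M) → Prop} (h : Df L R) (h' : Df L R') :
    Df L (fun v => (R v ↔ R' v)) := by
  refine ((h.imp h').and (h'.imp h)).congr fun v => ?_
  tauto

theorem Df.ex {R : (ℕ → M) → Prop} (h : Df L R) (k : ℕ) :
    Df L (fun v => ∃ x, R (Function.update v k x)) := by
  obtain ⟨φ, hφ⟩ := h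
  let g : ℕ → ℕ ⊕ Unit := fun i => if i = k then Sum.inr () else Sum.inl i
  refine ⟨(φ.relabel g).iExs Unit, fun v => ?_⟩
  rw [Formula.realize_iExs]
  have key : ∀ u : Unit → M, (Sum.elim v u) ∘ g = Function.update v k (u ()) := by
    intro u
    funext i
    by_cases hi : i = k
    · subst hi; simp [g]
    · simp [g, hi]
  constructor
  · rintro ⟨u, hu⟩
    rw [Formula.realize_relabel, key, hφ] at hu
    exact ⟨u (), hu⟩
  · rintro ⟨x, hx⟩
    refine ⟨fun _ => x, ?_⟩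
    rw [Formula.realize_relabel, key, hφ]
    exact hx

theorem Df.all {R : (ℕ → M) → Prop} (h : Df L R) (k : ℕ) :
    Df L (fun v => ∀ x, R (Function.update v k x)) := by
  refine (h.not.ex k).not.congr fun v => ?_
  simp

theorem Df.relab {R : (ℕ → M) → Prop} (h : Df L R) (g : ℕ → ℕ) :
    Df L (fun v => R (v ∘ g)) := by
  obtain ⟨φ, hφ⟩ := h
  exact ⟨φ.relabel g, fun v => by rw [Formula.realize_relabel, hφ]⟩

theorem Df.eq (i j : ℕ) : Df L (fun v : ℕ → M => v i = v j) :=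
  ⟨Term.equal (Term.var i) (Term.var j), fun v => by simp⟩

theorem meets {A : Set M} (hA : L.MeetsDefinable A) {R : (ℕ → M) → Prop} (hR : Df L R)
    (p : ℕ → M) (hp : ∀ i, p i ∈ A) (hx : ∃ x, R (Function.update p 0 x)) :
    ∃ x ∈ A, R (Function.update p 0 x) := by
  classical
  obtain ⟨φ, hφ⟩ := hR
  have hD : A.Definable₁ L {x | R (Function.update p 0 x)} := by
    refine ⟨((L.lhomWithConstants A).onFormula φ).subst
      (fun i => if i = 0 then Term.var 0 else (L.con (⟨p i, hp i⟩ : A)).term), ?_⟩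
    ext v
    simp only [mem_ofPred_eq, Formula.Realize, BoundedFormula.realize_subst]
    rw [← Formula.Realize, LHom.realize_onFormula, hφ]
    have : (fun a => Term.realize v (if a = 0 then Term.var 0 else (L.con (⟨p a, hp a⟩ : A)).term))
        = Function.update p 0 (v 0) := by
      funext i
      by_cases hi : i = 0
      · subst hi; simp
      · simp [hi]
    rw [this]
  obtain ⟨x, hx1, hx2⟩ := hA _ hx hD
  exact ⟨x, hx2, hx1⟩

end Def


section Coh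

variable {θ : Cardinal.{0}} {Δ : Hth θ → Hth θ → Prop}

/-- membership in `H_θ` -/
def mm (x y : HS θ Δ) : Prop := x.1 ∈ y.1

theorem Df.mem (i j : ℕ) : Df LD (fun v : ℕ → HS θ Δ => mm (v i) (v j)) :=
  ⟨(Relations.formula₂ (L := LD) Sym.mem (Term.var i) (Term.var j)), fun v => by
    simp only [Relations.formula₂, Relations.formula, Formula.Realize]
    rfl⟩

/-- the wellorder -/
def rr (x y : HS θ Δ) : Prop := Δ x y

theorem Df.wo (i j : ℕ) : Df LD (fun v : ℕ → HS θ Δ => rr (v i) (v j)) :=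
  ⟨(Relations.formula₂ (L := LD) Sym.wo (Term.var i) (Term.var j)), fun v => by
    simp only [Relations.formula₂, Relations.formula, Formula.Realize]
    rfl⟩

/-- `{x, y} ∈ f` -/
def U (f x y : HS θ Δ) : Prop := ∃ p, mm p f ∧ ∀ w, (mm w p ↔ (w = x ∨ w = y))

/-- `f` codes a function from a part of `x` onto `a \ x` -/
def G (f x a : HS θ Δ) : Prop :=
  (∀ b, mm b a → ¬ mm b x → ∃ c, mm c x ∧ U f c b) ∧
  (∀ c, mm c x → ∀ b, (mm b a ∧ ¬ mm b x ∧ U f c b) → ∀ b', (mm b' a ∧ ¬ mm b' x ∧ U f c b') →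
    b = b')

theorem dfU : Df LD (fun v : ℕ → HS θ Δ => U (v 0) (v 1) (v 2)) := by
  have h1 : Df LD (fun v : ℕ → HS θ Δ => mm (v 3) (v 0) ∧
      ∀ w, (mm ((Function.update v 4 w) 4) ((Function.update v 4 w) 3) ↔
        ((Function.update v 4 w) 4 = (Function.update v 4 w) 1 ∨
          (Function.update v 4 w) 4 = (Function.update v 4 w) 2))) :=
    (Df.mem 3 0).and (((Df.mem 4 3).iff ((Df.eq 4 1).or (Df.eq 4 2))).all 4)
  refine (h1.ex 3).congr fun v => ?_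
  simp [U]

theorem dfU' (i j k : ℕ) : Df LD (fun v : ℕ → HS θ Δ => U (v i) (v j) (v k)) := by
  refine (dfU.relab (fun n => if n = 0 then i else if n = 1 then j else k)).congr fun v => ?_
  simp

theorem dfG : Df LD (fun v : ℕ → HS θ Δ => G (v 0) (v 1) (v 2)) := by
  have h1 : Df LD (fun v : ℕ → HS θ Δ => (mm (v 3) (v 2) → ¬ mm (v 3) (v 1) →
      ∃ c, (mm ((Function.update v 4 c) 4) ((Function.update v 4 c) 1) ∧
        U ((Function.update v 4 c) 0) ((Function.update v 4 c) 4) ((Function.update v 4 c) 3)))) :=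
    (Df.mem 3 2).imp ((Df.mem 3 1).not.imp (((Df.mem 4 1).and (dfU' 0 4 3)).ex 4))
  have h2 : Df LD (fun v : ℕ → HS θ Δ => (mm (v 4) (v 2) ∧ ¬ mm (v 4) (v 1) ∧
      U (v 0) (v 3) (v 4)) → ∀ b', ((mm ((Function.update v 5 b') 5) ((Function.update v 5 b') 2) ∧
        ¬ mm ((Function.update v 5 b') 5) ((Function.update v 5 b') 1) ∧
        U ((Function.update v 5 b') 0) ((Function.update v 5 b') 3) ((Function.update v 5 b') 5)) →
        (Function.update v 5 b') 4 = (Function.update v 5 b') 5)) :=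
    ((Df.mem 4 2).and ((Df.mem 4 1).not.and (dfU' 0 3 4))).imp
      ((((Df.mem 5 2).and ((Df.mem 5 1).not.and (dfU' 0 3 5))).imp (Df.eq 4 5)).all 5)
  have h3 : Df LD (fun v : ℕ → HS θ Δ => mm (v 3) (v 1) → ∀ b,
      (fun v : ℕ → HS θ Δ => (mm (v 4) (v 2) ∧ ¬ mm (v 4) (v 1) ∧
      U (v 0) (v 3) (v 4)) → ∀ b', ((mm ((Function.update v 5 b') 5) ((Function.update v 5 b') 2) ∧
        ¬ mm ((Function.update v 5 b') 5) ((Function.update v 5 b') 1) ∧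
        U ((Function.update v 5 b') 0) ((Function.update v 5 b') 3) ((Function.update v 5 b') 5)) →
        (Function.update v 5 b') 4 = (Function.update v 5 b') 5)) (Function.update v 4 b)) :=
    (Df.mem 3 1).imp (h2.all 4)
  refine ((h1.all 3).and (h3.all 3)).congr fun v => ?_
  simp [G]

theorem dfG' (i j k : ℕ) : Df LD (fun v : ℕ → HS θ Δ => G (v i) (v j) (v k)) := by
  refine (dfG.relab (fun n => if n = 0 then i else if n = 1 then j else k)).congr fun v => ?_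
  simp

/-- first definition: `x` is `ω₁`, from `a` -/
def R1 (x a : HS θ Δ) : Prop :=
  mm x a ∧ (∃ f, G f x a) ∧ ∀ x', mm x' x → ¬ ∃ f, G f x' a

theorem dfR1 : Df LD (fun v : ℕ → HS θ Δ => R1 (v 0) (v 1)) := by
  have h1 : Df LD (fun v : ℕ → HS θ Δ => ∃ f, G ((Function.update v 2 f) 2)
      ((Function.update v 2 f) 0) ((Function.update v 2 f) 1)) := (dfG' 2 0 1).ex 2
  have h2 : Df LD (fun v : ℕ → HS θ Δ => mm (v 3) (v 0) → ¬ ∃ f, G ((Function.update v 2 f) 2)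
      ((Function.update v 2 f) 3) ((Function.update v 2 f) 1)) :=
    (Df.mem 3 0).imp ((dfG' 2 3 1).ex 2).not
  refine ((Df.mem 0 1).and (h1.and (h2.all 3))).congr fun v => ?_
  simp [R1]

/-- second definition: the `Δ`-least code -/
def R2 (f k a : HS θ Δ) : Prop := G f k a ∧ ∀ f', G f' k a → ¬ rr f' f

theorem dfR2 : Df LD (fun v : ℕ → HS θ Δ => R2 (v 0) (v 1) (v 2)) := by
  have h2 : Df LD (fun v : ℕ → HS θ Δ => G (v 3) (v 1) (v 2) → ¬ rr (v 3) (v 0)) :=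
    (dfG' 3 1 2).imp (Df.wo 3 0).not
  refine (dfG.and (h2.all 3)).congr fun v => ?_
  simp [R2]


theorem hc_mem {x y : ZFSet.{0}} (hy : HC θ y) (h : x ∈ y) : HC θ x := by
  obtain ⟨t, ht, hyt, hc⟩ := hy
  exact ⟨t, ht, ht.subset_of_mem (hyt h), hc⟩

theorem hc_sub (hθ : (ZFSet.vonNeumann (ω_ 2)).card < θ) {x : ZFSet.{0}}
    (h : x ⊆ ZFSet.vonNeumann (ω_ 2)) : HC θ x :=
  ⟨_, ZFSet.isTransitive_vonNeumann _, h, hθ⟩

theorem hc_ord (hθ : (ZFSet.vonNeumann (ω_ 2)).card < θ) {α : Ordinal.{0}}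
    (h : α ≤ ω_ 2) : HC θ α.toZFSet :=
  hc_sub hθ (fun _ hz => ZFSet.vonNeumann_subset_of_le h (α.toZFSet_subset_vonNeumann hz))

theorem card_le_one {α : Ordinal.{0}} (h : α < ω_ 2) : α.card ≤ ℵ_ 1 := by
  rw [← ord_aleph, lt_ord] at h
  have h2 : (2 : Ordinal.{0}) = 1 + 1 := by norm_num
  rw [h2, ← succ_aleph, Order.lt_succ_iff] at h
  exact h

theorem card_le_zero {α : Ordinal.{0}} (h : α < ω_ 1) : α.card ≤ ℵ₀ := by
  rw [← ord_aleph, lt_ord] at h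
  have h2 : (1 : Ordinal.{0}) = 0 + 1 := by norm_num
  rw [h2, ← succ_aleph, Order.lt_succ_iff] at h
  simpa using h

/-- the unordered pair of two ordinals below `ω₂` is in `V_ω₂` -/
theorem pair_mem {α β : Ordinal.{0}} (hα : α < ω_ 2) (hβ : β < ω_ 2) :
    ({α.toZFSet, β.toZFSet} : ZFSet.{0}) ∈ ZFSet.vonNeumann (ω_ 2) := by
  rw [ZFSet.mem_vonNeumann, ZFSet.rank_pair, Ordinal.rank_toZFSet, Ordinal.rank_toZFSet]
  have hl : Order.IsSuccLimit (ω_ 2 : Ordinal.{0}) := isSuccLimit_omega 2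
  exact max_lt (hl.succ_lt hα) (hl.succ_lt hβ)

theorem exG (hθ : (ZFSet.vonNeumann (ω_ 2)).card < θ) {α : Ordinal.{0}} (h1 : ω_ 1 < α)
    (h2 : α < ω_ 2) {k a : HS θ Δ} (hk : k.1 = (ω_ 1 : Ordinal.{0}).toZFSet)
    (ha : a.1 = α.toZFSet) : ∃ f : HS θ Δ, G f k a := by
  classical
  have hle : #(Set.Ico (ω_ 1 : Ordinal.{0}) α) ≤ #(Set.Iio (ω_ 1 : Ordinal.{0})) := by
    have hsub : Set.Ico (ω_ 1 : Ordinal.{0}) α ⊆ Set.Iio α := fun x hx => hx.2
    refine (mk_le_mk_of_subset hsub).trans ?_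
    rw [Cardinal.mk_Iio_ordinal, Cardinal.mk_Iio_ordinal, Cardinal.lift_le, card_omega]
    exact card_le_one h2
  obtain ⟨e⟩ := hle
  have : Nonempty (Set.Ico (ω_ 1 : Ordinal.{0}) α) := ⟨⟨ω_ 1, le_rfl, h1⟩⟩
  let g : Set.Iio (ω_ 1 : Ordinal.{0}) → Set.Ico (ω_ 1 : Ordinal.{0}) α := Function.invFun e
  have hg : Function.Surjective g := Function.invFun_surjective e.injective
  have hlt12 : (ω_ 1 : Ordinal.{0}) < ω_ 2 := h1.trans h2
  let f : HS θ Δ := ⟨ZFSet.sep (fun z => ∃ ξ : Set.Iio (ω_ 1 : Ordinal.{0}),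
    z = {ξ.1.toZFSet, (g ξ).1.toZFSet}) (ZFSet.vonNeumann (ω_ 2)), hc_sub hθ ZFSet.sep_subset⟩
  have hf1 : ∀ (ξ : Set.Iio (ω_ 1 : Ordinal.{0})) (c b : HS θ Δ), c.1 = ξ.1.toZFSet →
      b.1 = (g ξ).1.toZFSet → U f c b := by
    intro ξ c b hc hb
    have hp : ({ξ.1.toZFSet, (g ξ).1.toZFSet} : ZFSet.{0}) ∈ f.1 :=
      (ZFSet.mem_sep (p := fun z => ∃ ξ : Set.Iio (ω_ 1 : Ordinal.{0}),
        z = {ξ.1.toZFSet, (g ξ).1.toZFSet}) (x := ZFSet.vonNeumann (ω_ 2))).2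
        ⟨pair_mem (lt_trans ξ.2 hlt12) (lt_trans (g ξ).2.2 h2), ξ, rfl⟩
    refine ⟨(⟨({ξ.1.toZFSet, (g ξ).1.toZFSet} : ZFSet.{0}), hc_mem f.2 hp⟩ : HS θ Δ), hp,
      fun w => ?_⟩
    show w.1 ∈ ({ξ.1.toZFSet, (g ξ).1.toZFSet} : ZFSet.{0}) ↔ _
    rw [ZFSet.mem_pair, ← hc, ← hb]
    exact or_congr (Subtype.ext_iff (p := fun x => HC θ x)).symm
      (Subtype.ext_iff (p := fun x => HC θ x)).symm
  have hf2 : ∀ (ξ : Set.Iio (ω_ 1 : Ordinal.{0})) (c b : HS θ Δ) (β : Ordinal.{0}),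
      c.1 = ξ.1.toZFSet → b.1 = β.toZFSet → ω_ 1 ≤ β → U f c b → β = (g ξ).1 := by
    rintro ξ c b β hc hb hβ ⟨p, hp, hw⟩
    obtain ⟨-, ξ', hξ'⟩ := (ZFSet.mem_sep (p := fun z => ∃ ξ : Set.Iio (ω_ 1 : Ordinal.{0}),
      z = {ξ.1.toZFSet, (g ξ).1.toZFSet}) (x := ZFSet.vonNeumann (ω_ 2))).1 hp
    have h3 : c.1 ∈ p.1 := (hw c).2 (Or.inl rfl)
    have h4 : b.1 ∈ p.1 := (hw b).2 (Or.inr rfl)
    rw [hξ', ZFSet.mem_pair, hc, Ordinal.toZFSet_injective.eq_iff,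
      Ordinal.toZFSet_injective.eq_iff] at h3
    rw [hξ', ZFSet.mem_pair, hb, Ordinal.toZFSet_injective.eq_iff,
      Ordinal.toZFSet_injective.eq_iff] at h4
    have h5 : ξ.1 = ξ'.1 := by
      rcases h3 with h | h
      · exact h
      · exact absurd ξ.2 (not_lt.2 (h ▸ (g ξ').2.1))
    have h6 : ξ = ξ' := Subtype.ext h5
    rcases h4 with h | h
    · exact absurd ξ'.2 (not_lt.2 (h ▸ hβ))
    · rw [h, h6]
  refine ⟨f, ?_, ?_⟩
  · intro b hb hbk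
    have hb' : b.1 ∈ a.1 := hb
    rw [ha, Ordinal.mem_toZFSet_iff] at hb'
    obtain ⟨β, hβ, hβb⟩ := hb'
    have hβ1 : ω_ 1 ≤ β := by
      by_contra hcon
      exact hbk (show b.1 ∈ k.1 by rw [hk, ← hβb, Ordinal.toZFSet_mem_toZFSet_iff]; exact not_le.1 hcon)
    obtain ⟨ξ, hξ⟩ := hg ⟨β, hβ1, hβ⟩
    refine ⟨⟨ξ.1.toZFSet, hc_ord hθ (lt_trans ξ.2 hlt12).le⟩, ?_, hf1 ξ _ b rfl ?_⟩
    · show ξ.1.toZFSet ∈ k.1
      rw [hk, Ordinal.toZFSet_mem_toZFSet_iff]; exact ξ.2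
    · rw [hξ, hβb]
  · intro c hc b hb b' hb'
    have hc' : c.1 ∈ k.1 := hc
    rw [hk, Ordinal.mem_toZFSet_iff] at hc'
    obtain ⟨ξ, hξ, hξc⟩ := hc'
    have key : ∀ b : HS θ Δ, mm b a ∧ ¬ mm b k ∧ U f c b →
        b.1 = (g ⟨ξ, hξ⟩).1.toZFSet := by
      rintro b ⟨h3, h4, h5⟩
      have hb' : b.1 ∈ a.1 := h3
      rw [ha, Ordinal.mem_toZFSet_iff] at hb'
      obtain ⟨β, hβ, hβb⟩ := hb'
      have hβ1 : ω_ 1 ≤ β := by
        by_contra hcon
        exact h4 (show b.1 ∈ k.1 by rw [hk, ← hβb, Ordinal.toZFSet_mem_toZFSet_iff]; exact not_le.1 hcon)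
      rw [← hβb, hf2 ⟨ξ, hξ⟩ c b β hξc.symm hβb.symm hβ1 h5]
    exact Subtype.ext ((key b hb).trans (key b' hb').symm)

theorem noG {α κ : Ordinal.{0}} (h1 : ω_ 1 < α) (h2 : κ < ω_ 1)
    (hθ : (ZFSet.vonNeumann (ω_ 2)).card < θ) {x a : HS θ Δ} (hx : x.1 = κ.toZFSet)
    (ha : a.1 = α.toZFSet) : ¬ ∃ f : HS θ Δ, G f x a := by
  classical
  rintro ⟨f, hf1, hf2⟩
  have hle12 : (ω_ 1 : Ordinal.{0}) ≤ ω_ 2 := omega_le_omega.2 (by norm_num)
  have key : ∀ β : Set.Ico κ (ω_ 1 : Ordinal.{0}), ∃ ξ : Set.Iio κ, ∃ c b : HS θ Δ,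
      c.1 = ξ.1.toZFSet ∧ b.1 = β.1.toZFSet ∧ mm c x ∧ mm b a ∧ ¬ mm b x ∧ U f c b := by
    intro β
    have hb : HC θ β.1.toZFSet := hc_ord hθ (β.2.2.le.trans hle12)
    have hba : mm (⟨β.1.toZFSet, hb⟩ : HS θ Δ) a := by
      show β.1.toZFSet ∈ a.1
      rw [ha, Ordinal.toZFSet_mem_toZFSet_iff]; exact β.2.2.trans h1
    have hbx : ¬ mm (⟨β.1.toZFSet, hb⟩ : HS θ Δ) x := by
      show ¬ β.1.toZFSet ∈ x.1
      rw [hx, Ordinal.toZFSet_mem_toZFSet_iff]; exact not_lt.2 β.2.1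
    obtain ⟨c, hc, hU⟩ := hf1 _ hba hbx
    have hc' : c.1 ∈ x.1 := hc
    rw [hx, Ordinal.mem_toZFSet_iff] at hc'
    obtain ⟨ξ, hξ, hξc⟩ := hc'
    exact ⟨⟨ξ, hξ⟩, c, _, hξc.symm, rfl, hc, hba, hbx, hU⟩
  choose e c b h3 h4 h5 h6 h7 h8 using key
  have hinj : Function.Injective e := by
    intro β β' hββ
    have hcc : c β = c β' := Subtype.ext (by rw [h3, h3, hββ])
    have hbb : b β = b β' :=
      hf2 (c β) (h5 β) (b β) ⟨h6 β, h7 β, h8 β⟩ (b β') ⟨h6 β', h7 β', hcc ▸ h8 β'⟩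
    have : (b β).1 = (b β').1 := by rw [hbb]
    rw [h4, h4, Ordinal.toZFSet_injective.eq_iff] at this
    exact Subtype.ext this
  have hk0 : #(Set.Iio κ) ≤ ℵ₀ := by
    rw [Cardinal.mk_Iio_ordinal, ← Cardinal.lift_aleph0.{1, 0}, Cardinal.lift_le]
    exact card_le_zero h2
  have hI : #(Set.Ico κ (ω_ 1 : Ordinal.{0})) ≤ ℵ₀ := (mk_le_of_injective hinj).trans hk0
  have hsub : Set.Iio (ω_ 1 : Ordinal.{0}) ⊆ Set.Iio κ ∪ Set.Ico κ (ω_ 1) := by
    intro z hz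
    by_cases hzk : z < κ
    · exact Or.inl hzk
    · exact Or.inr ⟨not_lt.1 hzk, hz⟩
  have h9 : #(Set.Iio (ω_ 1 : Ordinal.{0})) ≤ ℵ₀ := by
    refine (mk_le_mk_of_subset hsub).trans ((mk_union_le _ _).trans ?_)
    exact (add_le_add hk0 hI).trans (by simp)
  rw [Cardinal.mk_Iio_ordinal, card_omega, ← Cardinal.lift_aleph0.{1, 0}, Cardinal.lift_le] at h9
  exact absurd h9 (not_le.2 (aleph0_lt_aleph_one))


/-- the main uniqueness facts about `ω₁` -/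
theorem R1_iff (hθ : (ZFSet.vonNeumann (ω_ 2)).card < θ) {α : Ordinal.{0}} (h1 : ω_ 1 < α)
    (h2 : α < ω_ 2) {k a : HS θ Δ} (hk : k.1 = (ω_ 1 : Ordinal.{0}).toZFSet)
    (ha : a.1 = α.toZFSet) (x : HS θ Δ) : R1 x a ↔ x = k := by
  constructor
  · rintro ⟨h3, h4, h5⟩
    have h3' : x.1 ∈ a.1 := h3
    rw [ha, Ordinal.mem_toZFSet_iff] at h3'
    obtain ⟨κ, hκ, hκx⟩ := h3'
    rcases lt_trichotomy κ (ω_ 1) with h | h | h
    · exact absurd h4 (noG h1 h hθ hκx.symm ha)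
    · exact Subtype.ext (by rw [hk, ← hκx, h])
    · refine absurd (exG hθ h1 h2 hk ha) (h5 k ?_)
      show k.1 ∈ x.1
      rw [hk, ← hκx, Ordinal.toZFSet_mem_toZFSet_iff]
      exact h
  · rintro rfl
    refine ⟨?_, exG hθ h1 h2 hk ha, ?_⟩
    · show x.1 ∈ a.1
      rw [hk, ha, Ordinal.toZFSet_mem_toZFSet_iff]; exact h1
    · intro x' hx'
      have h3' : x'.1 ∈ x.1 := hx'
      rw [hk, Ordinal.mem_toZFSet_iff] at h3'
      obtain ⟨κ, hκ, hκx⟩ := h3'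
      exact noG h1 hκ hθ hκx.symm ha

theorem R2_ex (hΔ : IsWellOrder (Hth θ) Δ) {k a : HS θ Δ} (h : ∃ f, G f k a) :
    ∃ F, ∀ f : HS θ Δ, R2 f k a ↔ f = F := by
  have hwf : WellFounded Δ := hΔ.toIsWellFounded.wf
  obtain ⟨F, hF, hmin⟩ := hwf.has_min {f : Hth θ | G (Δ := Δ) f k a} h
  refine ⟨F, fun f => ⟨?_, ?_⟩⟩
  · rintro ⟨h1, h2⟩
    rcases trichotomous_of Δ f F with h3 | h3 | h3
    · exact absurd h3 (hmin f h1)
    · exact h3
    · exact absurd h3 (h2 F hF)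
  · rintro rfl
    exact ⟨hF, fun f' hf' => hmin f' hf'⟩

theorem coh (hθ : (ZFSet.vonNeumann (ω_ 2)).card < θ) (hΔ : IsWellOrder (Hth θ) Δ)
    (M N : LD.ElementarySubstructure (HS θ Δ))
    (h1 : tr (M : Set (HS θ Δ)) (ω_ 1) = tr (N : Set (HS θ Δ)) (ω_ 1)) {α β : Ordinal.{0}}
    (hα : α ∈ tr (M : Set (HS θ Δ)) (ω_ 2)) (hα' : α ∈ tr (N : Set (HS θ Δ)) (ω_ 2))
    (hβα : β < α) (hβ : β ∈ tr (M : Set (HS θ Δ)) (ω_ 2)) :
    β ∈ tr (N : Set (HS θ Δ)) (ω_ 2) := by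
  have hle12 : (ω_ 1 : Ordinal.{0}) ≤ ω_ 2 := omega_le_omega.2 (by norm_num)
  by_cases hb1 : β < ω_ 1
  · obtain ⟨-, b, hb, hbb⟩ := hβ
    have : β ∈ tr (M : Set (HS θ Δ)) (ω_ 1) := ⟨hb1, b, hb, hbb⟩
    rw [h1] at this
    obtain ⟨-, b', hb', hbb'⟩ := this
    exact ⟨hb1.trans_le hle12, b', hb', hbb'⟩
  · have hb1' := not_lt.1 hb1
    have hα1 : ω_ 1 < α := hb1'.trans_lt hβα
    obtain ⟨hα2, a, haM, ha⟩ := hα
    obtain ⟨-, a', haN, ha'⟩ := hα'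
    have haa : a' = a := Subtype.ext (ha'.trans ha.symm)
    rw [haa] at haN
    obtain ⟨hβ2, b, hbM, hb⟩ := hβ
    let k : HS θ Δ := ⟨(ω_ 1 : Ordinal.{0}).toZFSet, hc_ord hθ hle12⟩
    have hk : k.1 = (ω_ 1 : Ordinal.{0}).toZFSet := rfl
    obtain ⟨F, hF⟩ := R2_ex hΔ (exG hθ hα1 hα2 hk ha)
    have hR1 := R1_iff hθ hα1 hα2 hk ha
    have key : ∀ P : LD.ElementarySubstructure (HS θ Δ), a ∈ (P : Set (HS θ Δ)) →
        k ∈ (P : Set (HS θ Δ)) ∧ F ∈ (P : Set (HS θ Δ)) := by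
      intro P hP
      have hkP : k ∈ (P : Set (HS θ Δ)) := by
        obtain ⟨x, hx, hx'⟩ := meets P.meetsDefinable dfR1 (fun _ => a) (fun _ => hP)
          ⟨k, by simpa using (hR1 k).2 rfl⟩
        have : R1 x a := by simpa using hx'
        rw [(hR1 x).1 this] at hx
        exact hx
      refine ⟨hkP, ?_⟩
      obtain ⟨x, hx, hx'⟩ := meets P.meetsDefinable dfR2 (fun i => if i = 1 then k else a)
        (fun i => by split_ifs; exacts [hkP, hP])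
        ⟨F, by simpa using (hF F).2 rfl⟩
      have : R2 x k a := by simpa using hx'
      rw [(hF x).1 this] at hx
      exact hx
    obtain ⟨hkM, hFM⟩ := key M haM
    obtain ⟨hkN, hFN⟩ := key N haN
    have hG : G F k a := ((hF F).2 rfl).1
    have hba : mm b a := by
      show b.1 ∈ a.1
      rw [hb, ha, Ordinal.toZFSet_mem_toZFSet_iff]; exact hβα
    have hbk : ¬ mm b k := by
      show ¬ b.1 ∈ k.1
      rw [hb, hk, Ordinal.toZFSet_mem_toZFSet_iff]; exact hb1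
    have d3 : Df LD (fun v : ℕ → HS θ Δ => mm (v 0) (v 1) ∧ U (v 2) (v 0) (v 3)) :=
      (Df.mem 0 1).and (dfU' 2 0 3)
    obtain ⟨x, hxM, hx⟩ := meets M.meetsDefinable d3
      (fun i => if i = 1 then k else if i = 2 then F else b)
      (fun i => by split_ifs; exacts [hkM, hFM, hbM])
      (by simpa using hG.1 b hba hbk)
    have hx' : mm x k ∧ U F x b := by simpa using hx
    obtain ⟨hxk, hxU⟩ := hx'
    have hxk' : x.1 ∈ k.1 := hxk
    rw [hk, Ordinal.mem_toZFSet_iff] at hxk'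
    obtain ⟨ξ, hξ, hξx⟩ := hxk'
    have hξM : ξ ∈ tr (M : Set (HS θ Δ)) (ω_ 1) := ⟨hξ, x, hxM, hξx.symm⟩
    rw [h1] at hξM
    obtain ⟨-, x', hxN, hx'⟩ := hξM
    have hxx : x' = x := Subtype.ext (hx'.trans hξx)
    rw [hxx] at hxN
    have d4 : Df LD (fun v : ℕ → HS θ Δ => mm (v 0) (v 1) ∧ ¬ mm (v 0) (v 2) ∧
        U (v 3) (v 4) (v 0)) :=
      (Df.mem 0 1).and ((Df.mem 0 2).not.and (dfU' 3 4 0))
    obtain ⟨y, hyN, hy⟩ := meets N.meetsDefinable d4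
      (fun i => if i = 1 then a else if i = 2 then k else if i = 3 then F else x)
      (fun i => by split_ifs; exacts [haN, hkN, hFN, hxN])
      ⟨b, by simpa using ⟨hba, hbk, hxU⟩⟩
    have hy' : mm y a ∧ ¬ mm y k ∧ U F x y := by simpa using hy
    have : y = b := hG.2 x hxk y hy' b ⟨hba, hbk, hxU⟩
    rw [this] at hyN
    exact ⟨hβ2, b, hyN, hb⟩

end Coh


section Tree

variable {θ : Cardinal.{0}} {Δ : Hth θ → Hth θ → Prop}

theorem mem_tr_iUnion {A : ℕ → Set (HS θ Δ)} {κ α : Ordinal.{0}} :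
    α ∈ tr (⋃ n, A n) κ ↔ ∃ n, α ∈ tr (A n) κ := by
  constructor
  · rintro ⟨h1, x, hx, hx'⟩
    obtain ⟨n, hn⟩ := Set.mem_iUnion.1 hx
    exact ⟨n, h1, x, hn, hx'⟩
  · rintro ⟨n, h1, x, hx, hx'⟩
    exact ⟨h1, x, Set.mem_iUnion.2 ⟨n, hx⟩, hx'⟩

theorem tr_mono {A B : Set (HS θ Δ)} (h : A ⊆ B) (κ : Ordinal.{0}) : tr A κ ⊆ tr B κ :=
  fun _ ⟨h1, x, hx, hx'⟩ => ⟨h1, x, h hx, hx'⟩

/-- the union of an increasing sequence of elementary substructures is elementary -/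
theorem exists_union (N : ℕ → LD.ElementarySubstructure (HS θ Δ)) (h : Monotone N) :
    ∃ S : LD.ElementarySubstructure (HS θ Δ), (S : Set (HS θ Δ)) = ⋃ n, (N n : Set (HS θ Δ)) := by
  classical
  have hA : LD.MeetsDefinable (⋃ n, (N n : Set (HS θ Δ))) := by
    intro D hD hdef
    obtain ⟨A0, hA0, hdef0⟩ := Set.definable_iff_finitely_definable.1 hdef
    have h1 : ∀ a ∈ A0, ∃ n, a ∈ (N n : Set (HS θ Δ)) := fun a ha => Set.mem_iUnion.1 (hA0 ha)
    choose! f hf using h1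
    have hsub : (A0 : Set (HS θ Δ)) ⊆ (N (A0.sup f) : Set (HS θ Δ)) := by
      intro a ha
      exact h (Finset.le_sup (f := f) (Finset.mem_coe.1 ha)) (hf a (Finset.mem_coe.1 ha))
    obtain ⟨x, hx1, hx2⟩ := (N (A0.sup f)).meetsDefinable D hD (hdef0.mono hsub)
    exact ⟨x, hx1, Set.mem_iUnion.2 ⟨_, hx2⟩⟩
  exact ⟨hA.toElementarySubstructure, hA.closure_eq_self⟩

theorem InEnd.trans {M M' M'' : LD.ElementarySubstructure (HS θ Δ)} (h : InEnd M M')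
    (h' : InEnd M' M'') : InEnd M M'' :=
  ⟨h'.1, h.2.1.trans h'.2.1, h.2.2.trans h'.2.2⟩

/-- from a splitting one gets a proper end-extension -/
theorem new_of_two {P A B : LD.ElementarySubstructure (HS θ Δ)} (hA : InEnd P A) (hB : InEnd P B)
    (h : ¬ tr (A : Set (HS θ Δ)) (ω_ 2) ⊆ tr (B : Set (HS θ Δ)) (ω_ 2)) :
    ∃ V : LD.ElementarySubstructure (HS θ Δ), InEnd P V ∧
      ∃ γ ∈ tr (V : Set (HS θ Δ)) (ω_ 2), γ ∉ tr (P : Set (HS θ Δ)) (ω_ 2) := by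
  obtain ⟨γ, hγ, hγ'⟩ := Set.not_subset.1 h
  exact ⟨A, hA, γ, hγ, fun h => hγ' (tr_mono hB.2.1 _ h)⟩

/-- if `End(M)` is bounded, it has at most `ℵ₁` pairwise incomparable members -/
theorem card_bound (hθ : (ZFSet.vonNeumann (ω_ 2)).card < θ) (hΔ : IsWellOrder (Hth θ) Δ)
    (M : LD.ElementarySubstructure (HS θ Δ))
    (hnew : ∀ P : LD.ElementarySubstructure (HS θ Δ), InEnd M P →
      ∃ V : LD.ElementarySubstructure (HS θ Δ), InEnd P V ∧
        ∃ γ ∈ tr (V : Set (HS θ Δ)) (ω_ 2), γ ∉ tr (P : Set (HS θ Δ)) (ω_ 2))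
    {η : Ordinal.{0}} (hη : η < ω_ 2)
    (hb : ∀ M' : LD.ElementarySubstructure (HS θ Δ), InEnd M M' →
      ∀ α ∈ tr (M' : Set (HS θ Δ)) (ω_ 2), α < η)
    {I : Type} (F : I → LD.ElementarySubstructure (HS θ Δ)) (hF : ∀ i, InEnd M (F i))
    (hinc : ∀ i j, i ≠ j →
      ¬ tr (F i : Set (HS θ Δ)) (ω_ 2) ⊆ tr (F j : Set (HS θ Δ)) (ω_ 2)) : #I ≤ ℵ_ 1 := by
  classical
  choose V hFV γ hγV hγF using fun i => hnew (F i) (hF i)
  have htop : ∀ i, ∀ β ∈ tr (F i : Set (HS θ Δ)) (ω_ 2), β < γ i := by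
    intro i β hβ
    by_contra hcon
    rcases (not_lt.1 hcon).lt_or_eq with h | h
    · exact hγF i (coh hθ hΔ (V i) (F i) (hFV i).2.2.symm (tr_mono (hFV i).2.1 _ hβ) hβ h (hγV i))
    · exact hγF i (h ▸ hβ)
  have hVend : ∀ i, InEnd M (V i) := fun i => (hF i).trans (hFV i)
  have key : ∀ i j : I, γ i = γ j → ∀ α β,
      α ∈ tr (F i : Set (HS θ Δ)) (ω_ 2) → α ∉ tr (F j : Set (HS θ Δ)) (ω_ 2) →
      β ∈ tr (F j : Set (HS θ Δ)) (ω_ 2) → α < β → False := by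
    intro i j hij α β hα hα' hβ hαβ
    have hαV : α ∈ tr (V i : Set (HS θ Δ)) (ω_ 2) := tr_mono (hFV i).2.1 _ hα
    have h1 : α ∈ tr (V j : Set (HS θ Δ)) (ω_ 2) :=
      coh hθ hΔ (V i) (V j) ((hVend i).2.2.symm.trans (hVend j).2.2) (hγV i)
        (hij ▸ hγV j) (htop i α hα) hαV
    exact hα' (coh hθ hΔ (V j) (F j) (hFV j).2.2.symm (tr_mono (hFV j).2.1 _ hβ) hβ hαβ h1)
  have hinj : Function.Injective γ := by
    intro i j hij
    by_contra hne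
    obtain ⟨α, hα, hα'⟩ := Set.not_subset.1 (hinc i j hne)
    obtain ⟨β, hβ, hβ'⟩ := Set.not_subset.1 (hinc j i (Ne.symm hne))
    rcases lt_trichotomy α β with h | h | h
    · exact key i j hij α β hα hα' hβ h
    · exact hα' (h ▸ hβ)
    · exact key j i hij.symm β α hβ hβ' hα h
  have hcard : Cardinal.lift.{1} #I ≤ #(Set.Iio η) := by
    have h1 : Function.Injective (fun i : I => (⟨γ i, hb (V i) (hVend i) _ (hγV i)⟩ :
        Set.Iio η)) := by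
      intro x y h
      exact hinj (Subtype.ext_iff.1 h)
    have h3 := Cardinal.lift_mk_le_lift_mk_of_injective h1
    rwa [Cardinal.lift_uzero] at h3
  rw [Cardinal.mk_Iio_ordinal, Cardinal.lift_le] at hcard
  exact hcard.trans (card_le_one hη)

/-- iterated splitting gives `2^ω` pairwise incomparable end-extensions -/
theorem tree (hθ : (ZFSet.vonNeumann (ω_ 2)).card < θ) (hΔ : IsWellOrder (Hth θ) Δ)
    (hs : ∀ M : LD.ElementarySubstructure (HS θ Δ), PStar (M : Set (HS θ Δ)) →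
      ∃ M₀ M₁ : LD.ElementarySubstructure (HS θ Δ), InEnd M M₀ ∧ InEnd M M₁ ∧
      ¬ tr (M₀ : Set (HS θ Δ)) (ω_ 2) ⊆ tr (M₁ : Set (HS θ Δ)) (ω_ 2) ∧
      ¬ tr (M₁ : Set (HS θ Δ)) (ω_ 2) ⊆ tr (M₀ : Set (HS θ Δ)) (ω_ 2))
    (M : LD.ElementarySubstructure (HS θ Δ)) (hM : PStar (M : Set (HS θ Δ))) :
    ∃ W : (ℕ → Bool) → LD.ElementarySubstructure (HS θ Δ), (∀ x, InEnd M (W x)) ∧
      ∀ x y, x ≠ y → ¬ tr (W x : Set (HS θ Δ)) (ω_ 2) ⊆ tr (W y : Set (HS θ Δ)) (ω_ 2) := by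
  classical
  have hs' : ∀ M : LD.ElementarySubstructure (HS θ Δ), ∃ E : Bool →
      LD.ElementarySubstructure (HS θ Δ), PStar (M : Set (HS θ Δ)) →
      (∀ b, InEnd M (E b)) ∧ ∀ b, ¬ tr (E b : Set (HS θ Δ)) (ω_ 2) ⊆
        tr (E (!b) : Set (HS θ Δ)) (ω_ 2) := by
    intro M
    by_cases h : PStar (M : Set (HS θ Δ))
    · obtain ⟨M₀, M₁, h0, h1, h2, h3⟩ := hs M h
      refine ⟨fun b => if b then M₀ else M₁, fun _ => ⟨fun b => ?_, fun b => ?_⟩⟩
      · cases b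
        · simpa using h1
        · simpa using h0
      · cases b
        · simpa using h3
        · simpa using h2
    · exact ⟨fun _ => M, fun h' => absurd h' h⟩
  choose E hE using hs'
  obtain ⟨N, N0, N1⟩ : ∃ N : (ℕ → Bool) → ℕ → LD.ElementarySubstructure (HS θ Δ),
      (∀ x, N x 0 = M) ∧ ∀ x n, N x (n + 1) = E (N x n) (x n) :=
    ⟨fun x n => Nat.rec M (fun n P => E P (x n)) n, fun _ => rfl, fun _ _ => rfl⟩
  have hN : ∀ x n, InEnd M (N x n) := by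
    intro x n
    induction n with
    | zero => rw [N0]; exact ⟨hM, le_rfl, rfl⟩
    | succ n ih =>
      rw [N1]
      exact ih.trans ((hE (N x n) ih.1).1 (x n))
  have hmono : ∀ x, Monotone (N x) := by
    intro x
    refine monotone_nat_of_le_succ fun n => ?_
    rw [N1]
    exact ((hE (N x n) (hN x n).1).1 (x n)).2.1
  have hagree : ∀ x y : ℕ → Bool, ∀ n, (∀ i < n, x i = y i) → N x n = N y n := by
    intro x y n
    induction n with
    | zero => intro _; rw [N0, N0]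
    | succ n ih =>
      intro h
      rw [N1, N1, ih (fun i hi => h i (hi.trans (Nat.lt_succ_self n))), h n (Nat.lt_succ_self n)]
  choose W hW using fun x => exists_union (N x) (hmono x)
  have hWN : ∀ x n, N x n ≤ W x := by
    intro x n z hz
    show z ∈ (W x : Set (HS θ Δ))
    rw [hW]
    exact Set.mem_iUnion.2 ⟨n, hz⟩
  have hWtr : ∀ (x : ℕ → Bool) (κ α : Ordinal.{0}), α ∈ tr (W x : Set (HS θ Δ)) κ ↔
      ∃ n : ℕ, α ∈ tr (N x n : Set (HS θ Δ)) κ := by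
    intro x κ α
    rw [hW, mem_tr_iUnion]
  have hW1 : ∀ x, tr (M : Set (HS θ Δ)) (ω_ 1) = tr (W x : Set (HS θ Δ)) (ω_ 1) := by
    intro x
    ext α
    rw [hWtr]
    constructor
    · intro h; exact ⟨0, by rw [N0]; exact h⟩
    · rintro ⟨n, hn⟩
      rw [(hN x n).2.2]; exact hn
  have hWend : ∀ x, InEnd M (W x) := by
    intro x
    refine ⟨⟨?_, ?_⟩, (N0 x).symm.le.trans (hWN x 0), hW1 x⟩
    · rw [hW]
      exact Set.countable_iUnion fun n => (hN x n).1.1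
    · rw [← hW1 x]; exact hM.2
  refine ⟨W, hWend, ?_⟩
  intro x y hne hsub
  have hex : ∃ n, x n ≠ y n := Function.ne_iff.1 hne
  have hn := Nat.find_spec hex
  have hmin : ∀ i < Nat.find hex, x i = y i := fun i hi => not_not.1 (Nat.find_min hex hi)
  generalize Nat.find hex = n at hn hmin
  have hNN := hagree x y n hmin
  have hyx : y n = !(x n) := by
    revert hn
    cases x n <;> cases y n <;> simp
  have hxy' : x n = !(y n) := by rw [hyx]; simp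
  obtain ⟨-, h2⟩ := hE (N x n) (hN x n).1
  obtain ⟨α, hα, hα'⟩ := Set.not_subset.1 (h2 (x n))
  obtain ⟨β, hβ, hβ'⟩ := Set.not_subset.1 (h2 (y n))
  rw [← hyx] at hα'
  rw [← hxy'] at hβ'
  have e1 : E (N x n) (x n) = N x (n + 1) := (N1 x n).symm
  have e2 : E (N x n) (y n) = N y (n + 1) := by rw [N1, hNN]
  rw [e1] at hα hβ'
  rw [e2] at hα' hβ
  have hαx : α ∈ tr (W x : Set (HS θ Δ)) (ω_ 2) := tr_mono (hWN x (n + 1)) _ hα
  have hαy := hsub hαx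
  have hβy : β ∈ tr (W y : Set (HS θ Δ)) (ω_ 2) := tr_mono (hWN y (n + 1)) _ hβ
  have t1 : tr (W y : Set (HS θ Δ)) (ω_ 1) = tr (N y (n + 1) : Set (HS θ Δ)) (ω_ 1) :=
    (hWend y).2.2.symm.trans (hN y (n + 1)).2.2
  have t2 : tr (W y : Set (HS θ Δ)) (ω_ 1) = tr (W x : Set (HS θ Δ)) (ω_ 1) :=
    (hWend y).2.2.symm.trans (hWend x).2.2
  have t3 : tr (W x : Set (HS θ Δ)) (ω_ 1) = tr (N x (n + 1) : Set (HS θ Δ)) (ω_ 1) :=
    (hWend x).2.2.symm.trans (hN x (n + 1)).2.2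
  rcases lt_trichotomy α β with h | h | h
  · exact hα' (coh hθ hΔ _ _ t1 hβy hβ h hαy)
  · exact hα' (h ▸ hβ)
  · have hβx := coh hθ hΔ _ _ t2 hαy hαx h hβy
    exact hβ' (coh hθ hΔ _ _ t3 hαx hα h hβx)

/-- if `End(M)` is cofinal, it has `ℵ₂` pairwise incomparable members -/
theorem many_of_cof (hθ : (ZFSet.vonNeumann (ω_ 2)).card < θ) (hΔ : IsWellOrder (Hth θ) Δ)
    (M : LD.ElementarySubstructure (HS θ Δ))
    (hc : ∀ γ₀ < (ω_ 2 : Ordinal.{0}), ∃ M' : LD.ElementarySubstructure (HS θ Δ), InEnd M M' ∧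
      ∃ α ∈ tr (M' : Set (HS θ Δ)) (ω_ 2), γ₀ ≤ α) :
    ∃ (I : Type) (F : I → LD.ElementarySubstructure (HS θ Δ)), #I = ℵ_ 2 ∧
      (∀ i, InEnd M (F i)) ∧ ∀ i j, i ≠ j →
        ¬ tr (F i : Set (HS θ Δ)) (ω_ 2) ⊆ tr (F j : Set (HS θ Δ)) (ω_ 2) := by
  classical
  let T : Set Ordinal.{0} := {α | ∃ M' : LD.ElementarySubstructure (HS θ Δ), InEnd M M' ∧
    α ∈ tr (M' : Set (HS θ Δ)) (ω_ 2)}
  have hT : ∀ α ∈ T, ∃ M' : LD.ElementarySubstructure (HS θ Δ), InEnd M M' ∧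
    α ∈ tr (M' : Set (HS θ Δ)) (ω_ 2) := fun α h => h
  choose! K hK hKα using hT
  have reg : (ℵ_ 2 : Cardinal.{1}).IsRegular := by
    have h2 : (2 : Ordinal.{1}) = 1 + 1 := by norm_num
    rw [h2, ← succ_aleph]
    exact isRegular_succ (aleph0_le_aleph 1)
  have h12 : (ℵ_ 1 : Cardinal.{1}) < ℵ_ 2 := aleph_lt_aleph.2 (by norm_num)
  -- `T` has at least `ℵ₂` elements
  have hTcard : (ℵ_ 2 : Cardinal.{1}) ≤ #T := by
    by_contra hcon
    have h1 : #T ≤ ℵ_ 1 := by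
      have h2 : (2 : Ordinal.{1}) = 1 + 1 := by norm_num
      rw [not_le, h2, ← succ_aleph, Order.lt_succ_iff] at hcon
      exact hcon
    have hsub : Set.Iio (ω_ 2 : Ordinal.{0}) ⊆ ⋃ α : T, Set.Iic α.1 := by
      intro z hz
      obtain ⟨M', hM', α, hα, hz'⟩ := hc z hz
      exact Set.mem_iUnion.2 ⟨⟨α, M', hM', hα⟩, hz'⟩
    have h3 := (mk_le_mk_of_subset hsub).trans (mk_iUnion_le _)
    have h4 : (⨆ α : T, #(Set.Iic α.1)) ≤ ℵ_ 1 := by
      refine ciSup_le' fun α => ?_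
      have hα2 : Order.succ α.1 < ω_ 2 :=
        (isSuccLimit_omega 2).succ_lt (hKα α.1 α.2).1
      have hIic : Set.Iic α.1 = Set.Iio (Order.succ α.1) := by
        ext z; simp
      have h7 : Cardinal.lift.{1, 0} (ℵ_ 1) = ℵ_ 1 := by simp
      rw [hIic, Cardinal.mk_Iio_ordinal, ← h7]
      exact Cardinal.lift_le.2 (card_le_one hα2)
    have h5 : #(Set.Iio (ω_ 2 : Ordinal.{0})) ≤ ℵ_ 1 := by
      refine h3.trans ((mul_le_mul' h1 h4).trans ?_)
      rw [mul_eq_self (aleph0_le_aleph 1)]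
    rw [Cardinal.mk_Iio_ordinal, card_omega] at h5
    have h6 : Cardinal.lift.{1, 0} (ℵ_ 2) = ℵ_ 2 := by simp
    rw [h6] at h5
    exact absurd h5 (not_le.2 h12)
  -- the tree relation and its rank
  let R : Ordinal.{0} → Ordinal.{0} → Prop := fun β α =>
    β < α ∧ α ∈ T ∧ β ∈ tr (K α : Set (HS θ Δ)) (ω_ 2)
  have hRwf : WellFounded R := Subrelation.wf (fun h => h.1) (wellFounded_lt (α := Ordinal.{0}))
  have : IsWellFounded Ordinal.{0} R := ⟨hRwf⟩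
  have hrank : ∀ α, IsWellFounded.rank R α < (ω_ 1 : Ordinal.{1}) := by
    intro α
    induction α using hRwf.induction with
    | _ α ih =>
      rw [IsWellFounded.rank_eq]
      have hcount : Countable {β // R β α} := by
        by_cases hα : α ∈ T
        · have h1 : (tr (K α : Set (HS θ Δ)) (ω_ 2)).Countable := by
            have h2 : tr (K α : Set (HS θ Δ)) (ω_ 2) ⊆
                (fun x : HS θ Δ => x.1.rank) '' (K α : Set (HS θ Δ)) := by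
              rintro z ⟨-, x, hx, hx'⟩
              exact ⟨x, hx, by simp only [hx']; exact Ordinal.rank_toZFSet z⟩
            exact ((hK α hα).1.1.image _).mono h2
          exact (h1.mono (fun z (hz : R z α) => hz.2.2)).to_subtype
        · have : IsEmpty {β // R β α} := ⟨fun z => hα z.2.2.1⟩
          infer_instance
      refine Ordinal.iSup_lt_omega_one fun b => ?_
      exact (isSuccLimit_omega 1).succ_lt (ih b.1 b.2)
  let f : T → (ω_ 1 : Ordinal.{1}).ToType := fun α => Ordinal.ToType.mk ⟨_, hrank α.1⟩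
  obtain ⟨a, ha⟩ := infinite_pigeonhole_card f (ℵ_ 2) hTcard (aleph0_le_aleph 2) (by
    rw [reg.cof_ord, mk_toType, card_omega]; exact h12)
  have hemb : Cardinal.lift.{1} #(ℵ_ 2 : Cardinal.{0}).out ≤
      Cardinal.lift.{0} #(f ⁻¹' {a}) := by
    rw [mk_out, Cardinal.lift_uzero]
    simpa using ha
  obtain ⟨e⟩ := Cardinal.lift_mk_le'.1 hemb
  have hlt : ∀ i j, i ≠ j → (e i).1.1 ≠ (e j).1.1 := fun i j hij h =>
    hij (e.injective (Subtype.ext (Subtype.ext h)))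
  have hre : ∀ i j, IsWellFounded.rank R (e i).1.1 = IsWellFounded.rank R (e j).1.1 := by
    intro i j
    have h1 : f (e i).1 = f (e j).1 := (e i).2.trans (e j).2.symm
    have h2 := Ordinal.ToType.mk.injective h1
    exact Subtype.ext_iff.1 h2
  refine ⟨(ℵ_ 2 : Cardinal.{0}).out, fun i => K (e i).1.1, mk_out _, fun i => hK _ (e i).1.2, ?_⟩
  intro i j hij hsub
  have hα := hKα _ (e i).1.2
  have hβ := hKα _ (e j).1.2
  have hαj := hsub hα
  rcases lt_trichotomy (e i).1.1 (e j).1.1 with h | h | h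
  · have h1 : R (e i).1.1 (e j).1.1 := ⟨h, (e j).1.2, hαj⟩
    exact absurd (IsWellFounded.rank_lt_of_rel h1) (by rw [hre i j]; exact lt_irrefl _)
  · exact hlt i j hij h
  · have h2 := coh hθ hΔ (K (e j).1.1) (K (e i).1.1)
      ((hK _ (e j).1.2).2.2.symm.trans (hK _ (e i).1.2).2.2) hαj hα h hβ
    have h1 : R (e j).1.1 (e i).1.1 := ⟨h, (e i).1.2, h2⟩
    exact absurd (IsWellFounded.rank_lt_of_rel h1) (by rw [hre i j]; exact lt_irrefl _)

end Tree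

theorem split_iff : SCCsplit ↔ Many 𝔠 := by
  constructor
  · rintro ⟨θ₀, h0⟩
    refine ⟨max θ₀ (Order.succ (ZFSet.vonNeumann (ω_ 2)).card), fun θ hθ hreg Δ hΔ M hM => ?_⟩
    have hθ1 : (ZFSet.vonNeumann (ω_ 2)).card < θ :=
      (Order.lt_succ _).trans_le ((le_max_right _ _).trans hθ)
    obtain ⟨W, h1, h2⟩ := tree hθ1 hΔ (h0 θ ((le_max_left _ _).trans hθ) hreg Δ hΔ) M hM
    exact ⟨ℕ → Bool, W, by simp, h1, h2⟩
  · rintro ⟨θ₀, h0⟩
    refine ⟨θ₀, fun θ hθ hreg Δ hΔ M hM => ?_⟩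
    obtain ⟨I, F, h1, h2, h3⟩ := h0 θ hθ hreg Δ hΔ M hM
    have : Nontrivial I := by
      rw [← Cardinal.one_lt_iff_nontrivial, h1]
      exact Cardinal.one_lt_aleph0.trans Cardinal.aleph0_lt_continuum
    obtain ⟨i, j, hij⟩ := exists_pair_ne I
    exact ⟨F i, F j, h2 i, h2 j, h3 i j hij, h3 j i hij.symm⟩

theorem cof_of_many {lam : Cardinal.{0}} (hl : ℵ_ 2 ≤ lam) (h : Many lam) : SCCcof := by
  obtain ⟨θ₀, h0⟩ := h
  refine ⟨max θ₀ (Order.succ (ZFSet.vonNeumann (ω_ 2)).card), fun θ hθ hreg Δ hΔ M hM γ₀ hγ₀ => ?_⟩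
  have hθ1 : (ZFSet.vonNeumann (ω_ 2)).card < θ :=
    (Order.lt_succ _).trans_le ((le_max_right _ _).trans hθ)
  have hs := h0 θ ((le_max_left _ _).trans hθ) hreg Δ hΔ
  by_contra hcon
  push Not at hcon
  have h12 : (ℵ_ 1 : Cardinal.{0}) < ℵ_ 2 := aleph_lt_aleph.2 (by norm_num)
  obtain ⟨I, F, h1, h2, h3⟩ := hs M hM
  have hle : #I ≤ ℵ_ 1 := by
    refine card_bound hθ1 hΔ M (fun P hP => ?_) hγ₀ (fun M' hM' α hα => ?_) F h2 h3
    · obtain ⟨I', F', h1', h2', h3'⟩ := hs P hP.1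
      have : Nontrivial I' := by
        rw [← Cardinal.one_lt_iff_nontrivial, h1']
        exact Cardinal.one_lt_aleph0.trans_le ((aleph0_le_aleph 2).trans hl)
      obtain ⟨i, j, hij⟩ := exists_pair_ne I'
      exact new_of_two (h2' i) (h2' j) (h3' i j hij)
    · exact lt_of_le_of_lt (le_csSup ⟨ω_ 2, fun z hz => hz.1.le⟩ hα) (hcon γ₀ le_rfl hγ₀ M' hM')
  rw [h1] at hle
  exact absurd (hl.trans hle) (not_le.2 h12)

theorem cof_iff : SCCcof ↔ Many (ℵ_ 2) := by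
  refine ⟨?_, cof_of_many le_rfl⟩
  rintro ⟨θ₀, h0⟩
  refine ⟨max θ₀ (Order.succ (ZFSet.vonNeumann (ω_ 2)).card), fun θ hθ hreg Δ hΔ M hM => ?_⟩
  have hθ1 : (ZFSet.vonNeumann (ω_ 2)).card < θ :=
    (Order.lt_succ _).trans_le ((le_max_right _ _).trans hθ)
  refine many_of_cof hθ1 hΔ M fun γ₀ hγ₀ => ?_
  have hs2 : Order.succ γ₀ < ω_ 2 := (isSuccLimit_omega 2).succ_lt hγ₀
  obtain ⟨γ, hγ1, hγ2, M', hM', hγ3⟩ :=
    h0 θ ((le_max_left _ _).trans hθ) hreg Δ hΔ M hM (Order.succ γ₀) hs2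
  refine ⟨M', hM', ?_⟩
  have hlt : γ₀ < sSup (tr (M' : Set (HS θ Δ)) (ω_ 2)) :=
    (Order.lt_succ γ₀).trans_le (hγ1.trans hγ3)
  have hne : (tr (M' : Set (HS θ Δ)) (ω_ 2)).Nonempty := by
    by_contra hemp
    rw [Set.not_nonempty_iff_eq_empty] at hemp
    rw [hemp] at hlt
    simp at hlt
  obtain ⟨α, hα, hα'⟩ := exists_lt_of_lt_csSup hne hlt
  exact ⟨α, hα, hα'.le⟩

/-- `SCC^split` says that `End(M)` always has `2^ω` pairwise incomparable members, `SCC^cof` that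
it always has `ℵ₂` of them; so `SCC^split` implies `SCC^cof` or the continuum hypothesis. -/
theorem result : (SCCsplit ↔ Many 𝔠) ∧ (SCCcof ↔ Many (ℵ_ 2)) ∧
    (SCCsplit → SCCcof ∨ (𝔠 : Cardinal.{0}) = ℵ_ 1) := by
  refine ⟨split_iff, cof_iff, fun h => ?_⟩
  by_cases hCH : (𝔠 : Cardinal.{0}) = ℵ_ 1
  · exact Or.inr hCH
  · left
    refine cof_of_many ?_ (split_iff.1 h)
    have h1 : (ℵ_ 1 : Cardinal.{0}) < 𝔠 :=
      lt_of_le_of_ne Cardinal.aleph_one_le_continuum (Ne.symm hCH)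
    have h2 : (2 : Ordinal.{0}) = 1 + 1 := by norm_num
    rw [h2, ← succ_aleph]
    exact Order.succ_le_of_lt h1

end Pool.Agent.Results.MP_d8f801_lc.SplitGivesCofinal
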